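import Mathlib
import Pool.Agent.Y94.LL.Up4

/-!
# MP_45a27d_nt: the Lehmer-Langevin constant of sectors, and of small discs

The definitions `MM`, `Admissible`, `LL`, `sector` are in `Pool.Agent.Y94.LL.Fin`; the proof is in
`Pool.Agent.Y94.LL`.
-/

set_option autoImplicit false

namespace Pool.Agent.Results.MP_45a27d_nt.NearPi

open Pool.Agent.Y94.LL Polynomial

/-- (1) Discs: a lower bound for all algebraic numbers without conjugates in a disc of radius `ε`
about a point of the unit circle. (2) Sectors: the constant of the sector `V_θ` for `θ` near `π`,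
up to a power of a logarithm. -/
theorem result :
    (∃ c : ℝ, 0 < c ∧ ∀ (V : Set ℂ) (ζ : ℂ) (ε : ℝ), ‖ζ‖ = 1 → 0 < ε → ε ≤ 1 / 2 →
      Metric.ball ζ ε ⊆ V → ∀ P : ℤ[X], Admissible V P →
      Real.exp (c * ε ^ 2 / (Real.log (1 / ε)) ^ 5) ≤ MM P ^ (1 / (P.natDegree : ℝ))) ∧
    (∃ c : ℝ, 0 < c ∧ ∀ θ : ℝ, Real.pi - 1 / 8 ≤ θ → θ < Real.pi →
      Real.exp (c * (Real.pi - θ) ^ 2 / (Real.log (2 / (Real.pi - θ))) ^ 5) ≤ LL (sector θ) ∧
      LL (sector θ) ≤
        Real.exp (256 * (Real.pi - θ) ^ 2 * Real.log (2 / (Real.pi - θ)))) := by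
  refine ⟨lower_V, ?_⟩
  obtain ⟨c, hc, h⟩ := lower_sector
  exact ⟨c, hc, fun θ h0 h1 => ⟨h θ (by linarith) h1, upper_sector θ h0 h1⟩⟩

end Pool.Agent.Results.MP_45a27d_nt.NearPi
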